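import Mathlib

set_option autoImplicit false

namespace Pool.Agent.H.MP_df8bb0_lc

/-- a piece `(job, machine, start, end)` -/
abbrev Piece := ℕ × Bool × ℝ × ℝ

/-- `L` is a preemptive two-machine schedule of the jobs `0, ..., n - 1` of length `p`
with completion times `C` -/
def IsSched (p : ℝ) (n : ℕ) (L : List Piece) (C : ℕ → ℝ) : Prop :=
  (∀ u ∈ L, u.1 < n ∧ 0 ≤ u.2.2.1 ∧ u.2.2.1 < u.2.2.2) ∧
  L.Pairwise (fun u v => u.1 = v.1 ∨ u.2.1 = v.2.1 → u.2.2.2 ≤ v.2.2.1 ∨ v.2.2.2 ≤ u.2.2.1) ∧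
  ∀ j < n, ((L.filter fun u => u.1 = j).map fun u => u.2.2.2 - u.2.2.1).sum = p ∧
    IsGreatest {b | ∃ u ∈ L, u.1 = j ∧ b = u.2.2.2} (C j)

noncomputable def clip (lo hi : ℝ) (u : Piece) : ℝ := max 0 (min u.2.2.2 hi - max u.2.2.1 lo)

lemma clip_sum (L : List Piece) (h0 : ∀ u ∈ L, u.2.2.1 < u.2.2.2)
    (h : L.Pairwise fun u v => u.2.2.2 ≤ v.2.2.1 ∨ v.2.2.2 ≤ u.2.2.1) (lo hi : ℝ) (hl : lo ≤ hi) :
    (L.map (clip lo hi)).sum ≤ hi - lo := by
  induction L generalizing lo hi with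
  | nil => simpa using hl
  | cons u L ih =>
    rw [List.pairwise_cons] at h
    have a := h0 u List.mem_cons_self
    have b := fun lo hi => ih (fun v hv => h0 v (List.mem_cons_of_mem _ hv)) h.2 lo hi
    have c1 := b lo (max lo (min u.2.2.1 hi)) (le_max_left _ _)
    have c2 := b (max lo (min u.2.2.2 hi)) hi (max_le hl (min_le_right _ _))
    have c3 : (L.map (clip lo hi)).sum ≤ (L.map fun v => clip lo (max lo (min u.2.2.1 hi)) v +
        clip (max lo (min u.2.2.2 hi)) hi v).sum := List.sum_le_sum fun v hv => by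
      have := h.1 v hv
      have := h0 v (List.mem_cons_of_mem _ hv)
      unfold clip; grind
    rw [List.sum_map_add] at c3
    have : clip lo hi u ≤ max lo (min u.2.2.2 hi) - max lo (min u.2.2.1 hi) := by unfold clip; grind
    rw [List.map_cons, List.sum_cons]
    linarith

lemma sum_fib (L : List Piece) (S : Finset ℕ) (f : Piece → ℝ) :
    ∑ j ∈ S, ((L.filter fun u => u.1 = j).map f).sum = ((L.filter fun u => u.1 ∈ S).map f).sum := by
  induction L with
  | nil => simp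
  | cons u L ih =>
    have : ∀ j, (((u :: L).filter fun u => u.1 = j).map f).sum =
        (if u.1 = j then f u else 0) + ((L.filter fun u => u.1 = j).map f).sum := fun j => by
      by_cases h : u.1 = j <;> simp [h]
    simp only [this, Finset.sum_add_distrib, ih, Finset.sum_ite_eq]
    by_cases h : u.1 ∈ S <;> simp [h]

lemma sum_mach (L : List Piece) (f : Piece → ℝ) : (L.map f).sum =
    ((L.filter fun u => u.2.1 = true).map f).sum + ((L.filter fun u => u.2.1 = false).map f).sum := by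
  induction L with
  | nil => simp
  | cons u L ih => cases h : u.2.1 <;> simp [h, ih] <;> ring

def Feas (p : ℝ) (n : ℕ) (x : ℕ → ℝ) : Prop :=
  ∀ a < n, ∀ S : Finset ℕ, a ∉ S → ∀ s, 0 ≤ s → (∀ b ∈ S, b < n ∧ x b ≤ s) →
    (S.card + 1) * p ≤ s + max (x a) s

lemma nec {p : ℝ} {n : ℕ} {L : List Piece} {C : ℕ → ℝ} (h : IsSched p n L C) : Feas p n C := by
  obtain ⟨h1, h2, h3⟩ := h
  intro a ha S hS s hs hb
  have e : ∀ u ∈ L, u.2.2.2 ≤ C u.1 := fun u hu => (h3 _ (h1 u hu).1).2.2 ⟨u, hu, rfl, rfl⟩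
  have cs : ∀ q : Piece → Bool, (∀ u v, q u → q v → u.1 = v.1 ∨ u.2.1 = v.2.1) → ∀ lo hi, lo ≤ hi →
      ((L.filter q).map (clip lo hi)).sum ≤ hi - lo := fun q hq =>
    clip_sum _ (fun u hu => (h1 u (List.mem_of_mem_filter hu)).2.2) ((h2.filter q).imp_of_mem
      fun {u v} a b c => c (hq u v (List.mem_filter.1 a).2 (List.mem_filter.1 b).2))
  have c1 := cs (fun u => u.2.1 = true) (fun u v a b => Or.inr (by simp_all)) 0 s hs
  have c2 := cs (fun u => u.2.1 = false) (fun u v a b => Or.inr (by simp_all)) 0 s hs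
  have c3 := cs (fun u => u.1 = a) (fun u v a b => Or.inl (by simp_all)) s _ (le_max_right (C a) s)
  have c4 := sum_mach L (clip 0 s)
  have c5 : ((L.filter fun u => u.1 ∈ insert a S).map (clip 0 s)).sum ≤ (L.map (clip 0 s)).sum :=
    (List.filter_sublist.map _).sum_le_sum fun y hy => by
      obtain ⟨u, -, rfl⟩ := List.mem_map.1 hy; exact le_max_left _ _
  rw [← sum_fib, Finset.sum_insert hS] at c5
  have c6 : S.card • p ≤ ∑ j ∈ S, ((L.filter fun u => u.1 = j).map (clip 0 s)).sum :=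
    Finset.card_nsmul_le_sum _ _ _ fun j hj => (h3 j (hb j hj).1).1 ▸ List.sum_le_sum fun u hu => by
      obtain ⟨u1, u2⟩ := List.mem_filter.1 hu
      obtain rfl : u.1 = j := by simpa using u2
      have := e u u1
      have := (hb _ hj).2
      have := h1 u u1
      unfold clip; grind
  have c7 : p ≤ ((L.filter fun u => u.1 = a).map fun u => clip 0 s u + clip s (max (C a) s) u).sum :=
    (h3 a ha).1 ▸ List.sum_le_sum fun u hu => by
      obtain ⟨u1, u2⟩ := List.mem_filter.1 hu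
      obtain rfl : u.1 = a := by simpa using u2
      have := e u u1
      have := h1 u u1
      unfold clip; grind
  rw [List.sum_map_add] at c7
  rw [nsmul_eq_mul] at c6
  linarith

def Ch (P : ℕ) : ℕ → ℕ → List ℕ → ℕ → Prop
  | i, s, [], e => (i + 1) * P ≤ s + e
  | i, s, t :: l, e => (i + 1) * P ≤ s + t ∧ Ch P (i + 1) t l e

lemma ch_append {P i s t e : ℕ} {l l' : List ℕ} :
    Ch P i s (l ++ t :: l') e ↔ Ch P i s l t ∧ Ch P (i + l.length + 1) t l' e := by
  induction l generalizing i s with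
  | nil => simp [Ch]
  | cons a l ih => simp [Ch, ih, and_assoc, add_assoc, add_comm 1]

lemma build {P e : ℕ} (l : List (ℕ × ℕ)) (hn : (l.map (·.1)).Nodup) (i s α β : ℕ)
    (hs : (s :: l.map (·.2)).Pairwise (· ≤ ·)) (hc : Ch P i s (l.map (·.2)) e) (h1 : α + β = i * P)
    (h2 : α ≤ β) (h3 : β ≤ s) (h4 : β = s ∨ α + P ≤ s) : ∃ L : List Piece,
      (∀ u ∈ L, (if u.2.1 then (β : ℝ) else α) / 2 ≤ u.2.2.1 ∧ u.2.2.1 < u.2.2.2 ∧
        ∃ t ∈ l, t.1 = u.1 ∧ u.2.2.2 ≤ t.2 / 2) ∧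
      L.Pairwise (fun u v => u.1 = v.1 ∨ u.2.1 = v.2.1 → u.2.2.2 ≤ v.2.2.1 ∨ v.2.2.2 ≤ u.2.2.1) ∧
      ∀ t ∈ l, ((L.filter fun u => u.1 = t.1).map fun u => u.2.2.2 - u.2.2.1).sum = P / 2 := by
  induction l generalizing i s α β with
  | nil => exact ⟨[], by simp⟩
  | cons t l ih =>
    obtain ⟨j, x⟩ := t
    simp only [List.map_cons, List.nodup_cons, List.pairwise_cons (a := s), Ch] at hn hs hc
    have hx := hs.1 x List.mem_cons_self
    obtain ⟨α', β', a1, a2, a3, a4, a5, a6⟩ : ∃ α' β', α' + β' = α + β + P ∧ α ≤ α' ∧ α' ≤ β ∧ β ≤ β' ∧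
        β' ≤ x ∧ (β' = x ∨ α' + P ≤ x) :=
      ⟨α + β + P - min x (β + P), min x (β + P), by rw [add_mul] at hc; omega⟩
    obtain ⟨L, b1, b2, b3⟩ := ih hn.2 (i + 1) x α' β' hs.2 hc.2 (by rw [add_mul]; omega) (by omega) a5 a6
    have c : ∀ u ∈ L, u.1 ≠ j := fun u hu e => by
      obtain ⟨-, -, t, a, b, -⟩ := b1 u hu
      exact hn.1 (List.mem_map.2 ⟨t, a, b.trans e⟩)
    have r1 : (α' : ℝ) + β' = α + β + P := by exact_mod_cast a1
    have r2 : (α : ℝ) ≤ α' := by exact_mod_cast a2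
    have r3 : (α' : ℝ) ≤ β := by exact_mod_cast a3
    have r4 : (β : ℝ) ≤ β' := by exact_mod_cast a4
    have r5 : (β' : ℝ) ≤ x := by exact_mod_cast a5
    obtain ⟨N, n1, n2, n3⟩ : ∃ N : List Piece, (∀ u ∈ N, u.2.2.1 < u.2.2.2 ∧
        (u = (j, false, (α : ℝ) / 2, (α' : ℝ) / 2) ∨ u = (j, true, (β : ℝ) / 2, (β' : ℝ) / 2))) ∧
        N.Pairwise (fun u v => u.2.2.2 ≤ v.2.2.1) ∧ (N.map fun u => u.2.2.2 - u.2.2.1).sum = P / 2 := by
      classical
      refine ⟨[(j, false, (α : ℝ) / 2, (α' : ℝ) / 2), (j, true, (β : ℝ) / 2, (β' : ℝ) / 2)].filter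
        fun u => u.2.2.1 < u.2.2.2, fun u hu => ?_, List.Pairwise.filter _ (by simp; linarith), ?_⟩
      · simpa [and_comm] using hu
      · simp only [List.filter_cons, decide_eq_true_eq]
        split_ifs <;> simp <;> linarith
    refine ⟨N ++ L, fun u hu => ?_, List.pairwise_append.2 ⟨n2.imp fun h _ => Or.inl h, b2,
      fun u hu v hv h => Or.inl ?_⟩, fun t ht => ?_⟩
    · rcases List.mem_append.1 hu with h | h
      · obtain ⟨d, rfl | rfl⟩ := n1 u h <;>
          exact ⟨le_rfl, d, (j, x), List.mem_cons_self, rfl, by simp only; linarith⟩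
      · obtain ⟨d1, d2, t, d3, d4⟩ := b1 u h
        exact ⟨le_trans (by split_ifs <;> linarith) d1, d2, t, List.mem_cons_of_mem _ d3, d4⟩
    · have k := (b1 v hv).1
      obtain ⟨-, rfl | rfl⟩ := n1 u hu
      · rcases h with h | h
        · exact absurd h.symm (c v hv)
        · rw [← h] at k; exact k
      · rcases h with h | h
        · exact absurd h.symm (c v hv)
        · rw [← h] at k; exact k
    · rw [List.filter_append, List.map_append, List.sum_append]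
      rcases List.mem_cons.1 ht with rfl | h
      · rw [List.filter_eq_self.2 fun u hu => by obtain ⟨-, rfl | rfl⟩ := n1 u hu <;> simp, n3,
          List.filter_eq_nil_iff.2 fun u hu => by simpa using c u hu]
        simp
      · have : j ≠ t.1 := fun e => hn.1 (List.mem_map.2 ⟨t, h, e.symm⟩)
        rw [List.filter_eq_nil_iff.2 fun u hu => by obtain ⟨-, rfl | rfl⟩ := n1 u hu <;> simpa, b3 t h]
        simp

theorem suff {p n e : ℕ} (hp : 0 < p) (l : List (ℕ × ℕ)) (hn : (l.map (·.1)).Perm (List.range n))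
    (hs : (l.map (·.2)).Pairwise (· ≤ ·)) (hc : Ch (2 * p) 0 0 (l.map (·.2)) e) :
    ∃ L C, IsSched p n L C ∧ ∀ t ∈ l, C t.1 ≤ t.2 / 2 := by
  have nd := hn.nodup_iff.2 List.nodup_range
  obtain ⟨L, a, b, c⟩ := build l nd 0 0 0 0 (List.pairwise_cons.2 ⟨by simp, hs⟩) hc (by simp) le_rfl le_rfl
    (Or.inl rfl)
  have m : ∀ j, j < n ↔ ∃ t ∈ l, t.1 = j := fun j => by rw [← List.mem_range, ← hn.mem_iff, List.mem_map]
  have d : ∀ j < n, ((L.filter fun u => u.1 = j).map fun u => u.2.2.2 - u.2.2.1).sum = p := fun j hj => by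
    obtain ⟨t, ht, rfl⟩ := (m j).1 hj
    rw [c t ht]; push_cast; ring
  have : ∀ j, ∃ c, j < n → IsGreatest {b | ∃ u ∈ L, u.1 = j ∧ b = u.2.2.2} c := fun j => by
    by_cases hj : j < n
    · obtain ⟨u, hu⟩ := List.exists_mem_of_ne_nil (L.filter fun u => u.1 = j) fun k => by
        have := d j hj
        rw [k] at this
        exact hp.ne' (by simpa using this.symm)
      obtain ⟨c, hc⟩ := Set.Finite.isCompact (s := {b | ∃ u ∈ L, u.1 = j ∧ b = u.2.2.2})
        (((List.finite_toSet L).image fun u => u.2.2.2).subset fun b ⟨u, a, _, c⟩ => ⟨u, a, c.symm⟩)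
        |>.exists_isGreatest ⟨_, u, List.mem_of_mem_filter hu, by simpa using (List.mem_filter.1 hu).2, rfl⟩
      exact ⟨c, fun _ => hc⟩
    · exact ⟨0, fun k => absurd k hj⟩
  choose C hC using this
  refine ⟨L, C, ⟨fun u hu => ?_, b, fun j hj => ⟨d j hj, hC j hj⟩⟩, fun t ht => ?_⟩
  · obtain ⟨a1, a2, t, a3, a4, -⟩ := a u hu
    exact ⟨(m _).2 ⟨t, a3, a4⟩, by simpa using a1, a2⟩
  · obtain ⟨u, hu, e1, e2⟩ := (hC _ ((m _).2 ⟨t, ht, rfl⟩)).1
    obtain ⟨-, -, t', a3, a4, a5⟩ := a u hu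
    rwa [e2, ← List.inj_on_of_nodup_map nd a3 ht (a4.trans e1)]

noncomputable def Y (θ x : ℝ) : ℤ := ⌊x + θ⌋ + ⌈x - θ⌉

lemma Y_mono (θ : ℝ) {x y : ℝ} (h : x ≤ y) : Y θ x ≤ Y θ y :=
  add_le_add (Int.floor_mono (by linarith)) (Int.ceil_mono (by linarith))

lemma Y_int {θ : ℝ} (h : θ ∈ Set.Ioo (0 : ℝ) 1) (m : ℕ) : Y θ m = 2 * m := by
  have h1 : ⌊(m : ℝ) + θ⌋ = m := Int.floor_eq_iff.2 ⟨by simp [h.1.le], by simp [h.2]⟩
  have h2 : ⌈(m : ℝ) - θ⌉ = m := Int.ceil_eq_iff.2 ⟨by simp; linarith [h.2], by simp [h.1.le]⟩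
  rw [Y, h1, h2, two_mul]

lemma Y_add (θ : ℝ) {x y : ℝ} {m : ℕ} (h : (m : ℝ) ≤ x + y) : 2 * m ≤ Y θ x + Y θ y := by
  have k : ∀ x y : ℝ, (m : ℝ) ≤ x + y → (m : ℤ) ≤ ⌊x + θ⌋ + ⌈y - θ⌉ := fun x y h => by
    have := Int.lt_floor_add_one (x + θ)
    have := Int.le_ceil (y - θ)
    have : ((m : ℤ) : ℝ) < (⌊x + θ⌋ + ⌈y - θ⌉ + 1 : ℤ) := by push_cast; linarith
    exact Int.lt_add_one_iff.1 (by exact_mod_cast this)
  have := k x y h
  have := k y x (by linarith)
  unfold Y; omega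

lemma int_floor (x : ℝ) : IntervalIntegrable (fun θ => (⌊x + θ⌋ : ℝ)) MeasureTheory.volume 0 1 ∧
    ∫ θ in (0 : ℝ)..1, (⌊x + θ⌋ : ℝ) = x := by
  have m : ∀ a b, IntervalIntegrable (fun θ : ℝ => (⌊θ⌋ : ℝ)) MeasureTheory.volume a b := fun a b =>
    (show Monotone fun θ : ℝ => (⌊θ⌋ : ℝ) from fun a b h => by
      simp only; exact_mod_cast Int.floor_mono h).intervalIntegrable
  have f : ∀ a b, IntervalIntegrable (fun θ : ℝ => Int.fract θ) MeasureTheory.volume a b := fun a b =>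
    (intervalIntegral.intervalIntegrable_id).sub (m a b)
  refine ⟨(show Monotone fun θ : ℝ => (⌊x + θ⌋ : ℝ) from fun a b h => by
    simp only; exact_mod_cast Int.floor_mono (by linarith)).intervalIntegrable, ?_⟩
  rw [intervalIntegral.integral_comp_add_left (fun θ => (⌊θ⌋ : ℝ)) x]
  have h1 := (Int.fract_periodic ℝ).intervalIntegral_add_eq x 0
  have h2 : ∫ θ in (0 : ℝ)..0 + 1, Int.fract θ = ∫ θ in (0 : ℝ)..0 + 1, θ :=
    intervalIntegral.integral_congr_ae (by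
      filter_upwards [MeasureTheory.Measure.ae_ne MeasureTheory.volume (1 : ℝ)] with θ a b
      rw [Set.uIoc_of_le (by norm_num)] at b
      exact Int.fract_eq_self.2 ⟨b.1.le, lt_of_le_of_ne (by simpa using b.2) a⟩)
  simp only [← Int.self_sub_fract]
  rw [intervalIntegral.integral_sub intervalIntegral.intervalIntegrable_id (f _ _), add_zero, h1, h2]
  simp; ring

lemma exists_theta (n : ℕ) (w x : ℕ → ℝ) : ∃ θ ∈ Set.Ioo (0 : ℝ) 1,
    ∑ j ∈ Finset.range n, w j * Y θ (x j) ≤ ∑ j ∈ Finset.range n, w j * (2 * x j) := by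
  have e : ∀ j, IntervalIntegrable (fun θ => w j * Y θ (x j)) MeasureTheory.volume 0 1 ∧
      ∫ θ in (0 : ℝ)..1, w j * Y θ (x j) = w j * (2 * x j) := fun j => by
    have : ∀ θ, (Y θ (x j) : ℝ) = ⌊x j + θ⌋ - ⌊-x j + θ⌋ := fun θ => by
      rw [Y, show -x j + θ = -(x j - θ) by ring, Int.floor_neg]; push_cast; ring
    simp only [this]
    refine ⟨((int_floor _).1.sub (int_floor _).1).const_mul _, ?_⟩
    rw [intervalIntegral.integral_const_mul, intervalIntegral.integral_sub (int_floor _).1 (int_floor _).1,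
      (int_floor _).2, (int_floor _).2]
    ring
  have i1 := IntervalIntegrable.sum (Finset.range n) fun j _ => (e j).1
  obtain ⟨θ, a, b⟩ := MeasureTheory.exists_le_setAverage (μ := MeasureTheory.volume) (s := Set.Ioo (0 : ℝ) 1)
    (by simp) (by simp) ((intervalIntegrable_iff_integrableOn_Ioo_of_le zero_le_one).1 i1)
  refine ⟨θ, a, ?_⟩
  simp only [Finset.sum_apply] at b
  refine b.trans_eq ?_
  rw [MeasureTheory.setAverage_eq, ← MeasureTheory.integral_Ioc_eq_integral_Ioo,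
    ← intervalIntegral.integral_of_le zero_le_one, intervalIntegral.integral_finsetSum fun j _ => (e j).1]
  simp [(e _).2]

lemma ch_of {p n : ℕ} {x : ℕ → ℝ} {θ : ℝ} (F : Feas p n x) (m : List ℕ) (S : Finset ℕ) (s : ℝ) (h0 : 0 ≤ Y θ s)
    (hs : 0 ≤ s) (h1 : ∀ b ∈ S, b < n ∧ x b ≤ s) (h2 : ∀ a ∈ m, a < n ∧ a ∉ S ∧ s ≤ x a) (h3 : m.Nodup)
    (h4 : m.Pairwise fun a b => x a ≤ x b) (h5 : S.card + m.length = n) :
    Ch (2 * p) S.card (Y θ s).toNat (m.map fun a => (Y θ (x a)).toNat) ((n + 1) * (2 * p)) := by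
  induction m generalizing S s with
  | nil => exact le_add_left (by rw [← h5]; rfl)
  | cons a m ih =>
    obtain ⟨a1, a2, a3⟩ := h2 a List.mem_cons_self
    rw [List.nodup_cons] at h3
    rw [List.pairwise_cons] at h4
    have b := F a a1 S a2 s hs h1
    rw [max_eq_left a3] at b
    have c := Y_add θ (m := (S.card + 1) * p) (by exact_mod_cast b)
    have d := Y_mono θ a3
    refine ⟨by rw [mul_left_comm]; beta_reduce; omega, ?_⟩
    rw [← Finset.card_insert_of_notMem a2]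
    refine ih _ _ (by omega) (hs.trans a3) (fun b hb => ?_) (fun b hb => ?_) h3.2 h4.2
      (by rw [Finset.card_insert_of_notMem a2, ← h5, List.length_cons]; omega)
    · rcases Finset.mem_insert.1 hb with rfl | hb
      · exact ⟨a1, le_rfl⟩
      · exact ⟨(h1 b hb).1, (h1 b hb).2.trans a3⟩
    · obtain ⟨b1, b2, -⟩ := h2 b (List.mem_cons_of_mem _ hb)
      exact ⟨b1, by simpa using ⟨fun e => h3.1 (e ▸ hb), b2⟩, h4.1 b hb⟩

end Pool.Agent.H.MP_df8bb0_lc
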