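import Pool.Agent.H.MP_df8bb0_lc.A
import Pool.Agent.Lib.lead.CXBase

set_option autoImplicit false

namespace Pool.Agent.H.MP_df8bb0_lc
open Pool.Agent.Lib.CX

section
variable (P : ℕ) (w R : ℕ → ℕ)

def Sol (U : List ℕ) (s e i c : ℕ) : Prop := ∃ l : List (ℕ × ℕ), (l.map (·.1)).Perm U ∧
  (∀ t ∈ l, R t.1 ≤ t.2) ∧ (∀ t ∈ l, t.2 ≤ e) ∧ (l.map (·.2)).Pairwise (· ≤ ·) ∧ Ch P i s (l.map (·.2)) e ∧
  (l.map fun t => w t.1 * t.2).sum ≤ c

def win (V : List ℕ) (s e : ℕ) : List ℕ := V.filter fun j => s < R j ∧ R j ≤ e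

lemma exch (k m : ℕ) : ∀ (A B : List (ℕ × ℕ)) (t : ℕ), B.length < m → (∀ u ∈ B, w k ≤ w u.1) →
    (∀ u ∈ A ++ (k, t) :: B, R u.1 ≤ u.2) → ((A ++ (k, t) :: B).map (·.2)).Pairwise (· ≤ ·) →
    ∃ A' B' t', ((A' ++ (k, t') :: B').map (·.1)).Perm ((A ++ (k, t) :: B).map (·.1)) ∧
      (A' ++ (k, t') :: B').map (·.2) = (A ++ (k, t) :: B).map (·.2) ∧ (∀ u ∈ A' ++ (k, t') :: B', R u.1 ≤ u.2) ∧
      ((A' ++ (k, t') :: B').map fun t => w t.1 * t.2).sum ≤ ((A ++ (k, t) :: B).map fun t => w t.1 * t.2).sum ∧
      ∀ u ∈ B', t' < R u.1 := by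
  induction m with
  | zero => simp
  | succ m ih =>
    intro A B t h1 h2 h3 h4
    by_cases h : ∀ u ∈ B, t < R u.1
    · exact ⟨A, B, t, .refl _, rfl, h3, le_rfl, h⟩
    push Not at h
    obtain ⟨⟨j, x⟩, hu, h⟩ := h
    obtain ⟨B1, B2, rfl⟩ := List.append_of_mem hu
    have hx : t ≤ x := by
      simp only [List.map_append, List.map_cons, List.pairwise_append, List.pairwise_cons] at h4
      exact h4.2.1.1 x (by simp)
    have hw := h2 _ hu
    obtain ⟨A', B', t', a1, a2, a3, a4, a5⟩ := ih (A ++ (j, t) :: B1) B2 x (by simp at h1; omega)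
      (fun u hu => h2 u (by simp [hu])) (fun u hu => by
        have := h3 (k, t) (by simp)
        simp only [List.mem_append, List.mem_cons] at hu h3
        rcases hu with (hu | rfl | hu) | rfl | hu
        · exact h3 u (by simp [hu])
        · exact h
        · exact h3 u (by simp [hu])
        · exact this.trans hx
        · exact h3 u (by simp [hu])) (by simpa using h4)
    refine ⟨A', B', t', a1.trans ?_, by rw [a2]; simp, a3, a4.trans ?_, a5⟩
    · simp only [List.map_append, List.map_cons, List.append_assoc, List.cons_append]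
      exact .append_left _ (((List.perm_middle.cons _).trans (.swap _ _ _)).trans (List.perm_middle.cons _).symm)
    · simp only [List.map_append, List.map_cons, List.sum_append, List.sum_cons]
      obtain ⟨y, rfl⟩ := Nat.exists_eq_add_of_le hx
      have := Nat.mul_le_mul_right y hw
      simp only [mul_add] at *
      omega

lemma win_split (V : List ℕ) {s t e : ℕ} (h1 : s ≤ t) (h2 : t ≤ e) :
    (win R V s e).filter (fun j => R j ≤ t) = win R V s t ∧
      (win R V s e).filter (fun j => !decide (R j ≤ t)) = win R V t e := by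
  unfold win
  constructor <;> rw [List.filter_filter] <;> exact List.filter_congr fun j _ => by
    rw [Bool.eq_iff_iff]; simp; omega

lemma sol_step {V : List ℕ} {k s e i c : ℕ} (hw : ∀ j ∈ V, w k ≤ w j) (h1 : s < R k) :
    Sol P w R (k :: win R V s e) s e i c ↔ ∃ t, R k ≤ t ∧ t ≤ e ∧ ∃ c1 c2, c1 + w k * t + c2 ≤ c ∧
      Sol P w R (win R V s t) s t i c1 ∧ Sol P w R (win R V t e) t e (i + (win R V s t).length + 1) c2 := by
  constructor
  · rintro ⟨l, a1, a2, a3, a4, a5, a6⟩
    obtain ⟨⟨k', t⟩, hu, rfl⟩ := List.mem_map.1 (a1.mem_iff.2 List.mem_cons_self)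
    obtain ⟨A, B, rfl⟩ := List.append_of_mem hu
    obtain ⟨A', B', t', b1, b2, b3, b4, b5⟩ := exch w R k' _ A B t (Nat.lt_succ_self _) (fun u hu => by
      rcases List.mem_cons.1 (a1.subset (List.mem_map_of_mem (by simp [hu] : u ∈ _))) with h | h
      · rw [h]
      · exact hw _ (List.mem_of_mem_filter h)) a2 a4
    have a3' : ∀ x ∈ (A' ++ (k', t') :: B').map (·.2), x ≤ e := by
      rw [b2]; simpa only [List.forall_mem_map] using a3
    rw [← b2] at a4 a5
    replace a1 := b1.trans a1
    simp only [List.map_append, List.map_cons, List.sum_append, List.sum_cons, ch_append, List.length_map,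
      List.pairwise_append, List.pairwise_cons] at a1 a3' a4 a5 a6 b4
    have c1 := b3 (k', t') (by simp)
    have c2 := a3' t' (by simp)
    have c3 : ∀ u ∈ A', u.2 ≤ t' := fun u hu => a4.2.2 _ (List.mem_map_of_mem hu) _ List.mem_cons_self
    have c4 : ∀ u ∈ A', R u.1 ≤ u.2 := fun u hu => b3 u (by simp [hu])
    obtain ⟨e1, e2⟩ := win_split R V (h1.le.trans c1) c2
    have d := (List.perm_middle.symm.trans a1).cons_inv
    have d1 := d.filter fun j => R j ≤ t'
    have d2 := d.filter fun j => !decide (R j ≤ t')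
    rw [List.filter_append] at d1 d2
    rw [e1, List.filter_eq_self.2 (by simpa using fun a b h => (c4 _ h).trans (c3 _ h)),
      List.filter_eq_nil_iff.2 (by simpa using fun a b h => b5 _ h), List.append_nil] at d1
    rw [e2, List.filter_eq_nil_iff.2 (by simpa using fun a b h => (c4 _ h).trans (c3 _ h)),
      List.filter_eq_self.2 (by simpa using fun a b h => b5 _ h), List.nil_append] at d2
    refine ⟨t', c1, c2, _, _, ?_, ⟨A', d1, c4, c3, a4.1, a5.1, le_rfl⟩, B', d2, fun u hu => b3 u (by simp [hu]),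
      fun u hu => a3' _ (by simp; exact .inr (.inr ⟨_, hu⟩)), a4.2.1.2, ?_, le_rfl⟩
    · simp only at *; omega
    · rw [← d1.length_eq, List.length_map]; exact a5.2
  · rintro ⟨t, h2, h3, c1, c2, h4, ⟨A, a1, a2, a3, a4, a5, a6⟩, B, b1, b2, b3, b4, b5, b6⟩
    obtain ⟨e1, e2⟩ := win_split R V (h1.le.trans h2) h3
    have c : ∀ u ∈ B, t ≤ u.2 := fun u hu => by
      have := (List.mem_filter.1 (b1.subset (List.mem_map_of_mem hu))).2
      have := b2 u hu
      simp only [decide_eq_true_eq] at *; omega
    refine ⟨A ++ (k, t) :: B, ?_, ?_, ?_, ?_, ?_, ?_⟩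
    · rw [List.map_append, List.map_cons]
      refine List.perm_middle.trans (.cons _ ((a1.append b1).trans ?_))
      rw [← e1, ← e2]; exact List.filter_append_perm _ _
    · simp only [List.forall_mem_append, List.forall_mem_cons]; exact ⟨a2, h2, b2⟩
    · simp only [List.forall_mem_append, List.forall_mem_cons]; exact ⟨fun u hu => (a3 u hu).trans h3, h3, b3⟩
    · simp only [List.map_append, List.map_cons, List.pairwise_append, List.pairwise_cons, List.forall_mem_map,
        List.forall_mem_cons]
      exact ⟨a4, ⟨c, b4⟩, fun u hu => ⟨a3 u hu, fun v hv => (a3 u hu).trans (c v hv)⟩⟩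
    · rw [List.map_append, List.map_cons, ch_append, List.length_map, ← List.length_map (·.1), a1.length_eq]
      exact ⟨a5, b5⟩
    · simp only [List.map_append, List.map_cons, List.sum_append, List.sum_cons]; omega

def look (T : List (List (List ℕ))) (s e i : ℕ) : ℕ := ((T.getD s []).getD e []).getD i 0

def tab (E n B : ℕ) (f : ℕ → ℕ → ℕ → ℕ) : List (List (List ℕ)) :=
  (List.range (E + 1)).map fun s => (List.range (E + 1)).map fun e => (List.range (n + 1)).map fun i =>
    min B (f s e i)

lemma look_tab {E n B s e i : ℕ} (f : ℕ → ℕ → ℕ → ℕ) (h1 : s ≤ E) (h2 : e ≤ E) (h3 : i ≤ n) :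
    look (tab E n B f) s e i = min B (f s e i) := by
  simp [look, tab, *]

lemma size_tab (E n B : ℕ) (f : ℕ → ℕ → ℕ → ℕ) :
    size (tab E n B f) ≤ (E + 1) * ((E + 1) * ((n + 1) * (size B + 1) + 2 + 1) + 2 + 1) + 2 := by
  refine (size_list_le fun x hx => ?_).trans_eq (by rw [tab, List.length_map, List.length_range])
  obtain ⟨s, -, rfl⟩ := List.mem_map.1 hx
  refine (size_list_le fun x hx => ?_).trans_eq (by rw [List.length_map, List.length_range])
  obtain ⟨s, -, rfl⟩ := List.mem_map.1 hx
  refine (size_list_le fun x hx => ?_).trans_eq (by rw [List.length_map, List.length_range])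
  obtain ⟨s, -, rfl⟩ := List.mem_map.1 hx
  exact size_nat_mono (min_le_left _ _)

def mn (B : ℕ) (l : List ℕ) : ℕ := l.foldl min B

lemma mn_le {B c : ℕ} {l : List ℕ} : mn B l ≤ c ↔ B ≤ c ∨ ∃ x ∈ l, x ≤ c := by
  unfold mn
  induction l generalizing B with
  | nil => simp
  | cons a l ih => simp [ih, or_assoc]

def cell (E B k : ℕ) (V : List ℕ) (T : List (List (List ℕ))) (s e i : ℕ) : ℕ :=
  if s < R k ∧ R k ≤ e then mn B (((List.range (E + 1)).filter fun t => R k ≤ t ∧ t ≤ e).map fun t =>
    look T s t i + w k * t + look T t e (i + (win R V s t).length + 1)) else look T s e i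

def dp (E n B : ℕ) : List ℕ → List (List (List ℕ))
  | [] => tab E n B fun s e i => if (i + 1) * P ≤ s + e then 0 else B
  | k :: V => tab E n B (cell w R E B k V (dp E n B V))

lemma dp_spec (E n B : ℕ) (V : List ℕ) (hV : V.Pairwise fun a b => w a ≤ w b) : ∀ s ≤ E, ∀ e ≤ E, ∀ i,
    i + (win R V s e).length ≤ n → ∀ c < B, look (dp P w R E n B V) s e i ≤ c ↔ Sol P w R (win R V s e) s e i c := by
  induction V with
  | nil =>
    intro s hs e he i hi c hc
    rw [dp, look_tab _ hs he (by omega)]
    simp only [Sol, win, List.filter_nil, List.perm_nil, List.map_eq_nil_iff, exists_eq_left]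
    simp only [Ch, List.map_nil]
    split_ifs with h <;> simp [h, hc]
  | cons k V ih =>
    intro s hs e he i hi c hc
    rw [List.pairwise_cons] at hV
    rw [dp, look_tab _ hs he (by omega), min_le_iff, or_iff_right hc.not_ge, cell]
    split_ifs with h
    · have e1 : win R (k :: V) s e = k :: win R V s e := List.filter_cons_of_pos (by simpa using h)
      rw [e1] at hi ⊢
      rw [sol_step P w R hV.1 h.1, mn_le, or_iff_right hc.not_ge]
      have l : ∀ t, R k ≤ t → t ≤ e → (win R V s t).length + (win R V t e).length = (win R V s e).length :=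
        fun t h1 h2 => by
          obtain ⟨e1, e2⟩ := win_split R V (h.1.le.trans h1) h2
          rw [← e1, ← e2, ← List.length_append]; exact (List.filter_append_perm _ _).length_eq
      rw [List.length_cons] at hi
      constructor
      · rintro ⟨x, hx, a⟩
        obtain ⟨t, ht, rfl⟩ := List.mem_map.1 hx
        obtain ⟨h1, h2⟩ : R k ≤ t ∧ t ≤ e := by simpa using (List.mem_filter.1 ht).2
        have := l t h1 h2
        exact ⟨t, h1, h2, _, _, a, (ih hV.2 s hs t (by omega) i (by omega) _ (by omega)).1 le_rfl,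
          (ih hV.2 t (by omega) e he _ (by omega) _ (by omega)).1 le_rfl⟩
      · rintro ⟨t, h1, h2, c1, c2, a, b1, b2⟩
        have := l t h1 h2
        have := (ih hV.2 s hs t (by omega) i (by omega) _ (by omega)).2 b1
        have := (ih hV.2 t (by omega) e he _ (by omega) _ (by omega)).2 b2
        exact ⟨_, List.mem_map.2 ⟨t, by simp; omega, rfl⟩, by omega⟩
    · have e1 : win R (k :: V) s e = win R V s e := List.filter_cons_of_neg (by simpa using h)
      rw [e1] at hi ⊢
      exact ih hV.2 s hs e he i hi c hc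

def srt : List ℕ → List ℕ
  | [] => []
  | x :: l => (srt l).filter (fun j => w j ≤ w x) ++ x :: (srt l).filter fun j => !decide (w j ≤ w x)

lemma srt_spec (l : List ℕ) : (srt w l).Perm l ∧ (srt w l).Pairwise fun a b => w a ≤ w b := by
  induction l with
  | nil => simp [srt]
  | cons x l ih =>
    refine ⟨List.perm_middle.trans (((List.filter_append_perm _ _).trans ih.1).cons _), ?_⟩
    simp only [srt, List.pairwise_append, List.pairwise_cons, List.mem_filter, List.forall_mem_cons]
    refine ⟨ih.2.filter _, ⟨fun a h => ?_, ih.2.filter _⟩, fun a h => ⟨by simpa using h.2, fun b h' => ?_⟩⟩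
    · have := h.2; simp at this; omega
    · have := h.2; have := h'.2; simp at *; omega

end

end Pool.Agent.H.MP_df8bb0_lc
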