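import Pool.Agent.H.MP_df8bb0_lc.B

set_option autoImplicit false

namespace Pool.Agent.H.MP_df8bb0_lc
open Pool.Agent.Lib.CX

abbrev Inst := List (ℕ × ℕ)

/-- total weighted tardiness; job `j` has weight `I[j].1` and due date `I[j].2` -/
noncomputable def cost (I : List (ℕ × ℕ)) (C : ℕ → ℝ) : ℝ :=
  ∑ j : Fin I.length, (I[j].1 : ℝ) * max 0 (C j - I[j].2)

def wt (I : Inst) (j : ℕ) : ℕ := (I.getD j (0, 0)).1
def md (p : ℕ) (I : Inst) (j : ℕ) : ℕ := min (I.getD j (0, 0)).2 ((I.length + 1) * p)
def rl (p : ℕ) (I : Inst) (j : ℕ) : ℕ := 2 * max 1 (md p I j)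
def top (p : ℕ) (I : Inst) : ℕ := (I.length + 1) * (2 * p)
def big (p : ℕ) (I : Inst) : ℕ := ((List.range I.length).map fun j => wt I j * top p I).sum + 1
def best (p : ℕ) (I : Inst) : ℕ := look (dp (2 * p) (wt I) (rl p I) (top p I) I.length (big p I)
  (srt (wt I) (List.range I.length))) 0 (top p I) 0
def off (p : ℕ) (I : Inst) : ℕ := ((List.range I.length).map fun j => wt I j * (2 * md p I j)).sum
def val (p : ℕ) (I : Inst) : ℕ := best p I - off p I

lemma ch_rep {P e : ℕ} (l : List ℕ) (i s : ℕ) (h : ∀ t ∈ l, t = e) (h' : (i + l.length + 1) * P ≤ e) :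
    Ch P i s l e := by
  induction l generalizing i s with
  | nil => exact le_add_left h'
  | cons a l ih =>
    obtain rfl := h a List.mem_cons_self
    exact ⟨le_add_left ((Nat.mul_le_mul_right _ (by omega)).trans h'), ih _ _
      (fun t ht => h t (List.mem_cons_of_mem _ ht)) (by rw [List.length_cons] at h'; convert h' using 2; omega)⟩

lemma rl_le {p : ℕ} (hp : 0 < p) (I : Inst) (j : ℕ) : rl p I j ≤ top p I := by
  have : 0 < (I.length + 1) * p := by positivity
  rw [top, mul_left_comm, rl, md]; omega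

lemma best_spec {p : ℕ} (hp : 0 < p) (I : Inst) (c : ℕ) :
    best p I ≤ c ↔ Sol (2 * p) (wt I) (rl p I) (List.range I.length) 0 (top p I) 0 c := by
  obtain ⟨a, b⟩ := srt_spec (wt I) (List.range I.length)
  have e : win (rl p I) (srt (wt I) (List.range I.length)) 0 (top p I) = _ := List.filter_eq_self.2 fun j _ => by
    have := rl_le hp I j
    simp only [decide_eq_true_eq, rl] at *; omega
  have h : ∀ c < big p I, best p I ≤ c ↔ Sol (2 * p) (wt I) (rl p I) (List.range I.length) 0 (top p I) 0 c :=
    fun c hc => by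
      rw [best, dp_spec _ _ _ _ _ _ _ b 0 (Nat.zero_le _) _ le_rfl 0 (by rw [e, a.length_eq]; simp) c hc, e]
      exact exists_congr fun l => and_congr_left' ⟨fun h => h.trans a, fun h => h.trans a.symm⟩
  have h0 := (h (big p I - 1) (by unfold big; omega)).2 ⟨(List.range I.length).map fun j => (j, top p I),
    by simp [Function.comp_def], by simpa using fun j _ => rl_le hp I j, by simp,
    by simp [Function.comp_def], ch_rep _ _ _ (by simp) (by simp [top]), by simp [big, Function.comp_def]⟩
  have h1 : best p I < big p I := by unfold big at *; omega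
  refine ⟨fun k => ?_, fun k => ?_⟩
  · obtain ⟨l, a1, a2, a3, a4, a5, a6⟩ := (h _ h1).1 le_rfl
    exact ⟨l, a1, a2, a3, a4, a5, a6.trans k⟩
  · by_cases hc : c < big p I
    · exact (h c hc).2 k
    · omega

lemma cost_eq (I : Inst) (C : ℕ → ℝ) :
    cost I C = ∑ j ∈ Finset.range I.length, (wt I j : ℝ) * max 0 (C j - (I.getD j (0, 0)).2) := by
  rw [Finset.sum_range]; simp [cost, wt]

lemma off_eq (p : ℕ) (I : Inst) :
    (off p I : ℝ) = ∑ j ∈ Finset.range I.length, (wt I j : ℝ) * (2 * md p I j) := by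
  rw [off, ← List.sum_toFinset _ List.nodup_range, List.toFinset_range]; simp

lemma upper {p : ℕ} (hp : 0 < p) (I : Inst) :
    ∃ L C, IsSched p I.length L C ∧ cost I C ≤ (best p I - off p I) / 2 := by
  obtain ⟨l, a1, a2, -, a4, a5, a6⟩ := (best_spec hp I _).1 le_rfl
  obtain ⟨L, C, h, k⟩ := suff hp l a1 a4 a5
  refine ⟨L, C, h, ?_⟩
  have e : ∀ f : ℕ → ℝ, ∑ j ∈ Finset.range I.length, f j = (l.map fun t => f t.1).sum := fun f => by
    rw [← List.toFinset_range, List.sum_toFinset _ List.nodup_range, ← (a1.map f).sum_eq, List.map_map]; rfl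
  have a7 : (l.map fun t => (wt I t.1 : ℝ) * t.2).sum ≤ best p I := by
    have := (Nat.cast_le (α := ℝ)).2 a6
    simpa [Function.comp_def] using this
  have : (l.map fun t => 2 * ((wt I t.1 : ℝ) * max 0 (C t.1 - (I.getD t.1 (0, 0)).2)) +
      wt I t.1 * (2 * md p I t.1)).sum ≤ (l.map fun t => (wt I t.1 : ℝ) * t.2).sum := List.sum_le_sum fun t ht => by
    have b1 := k t ht
    have b2 : 2 * (md p I t.1 : ℝ) ≤ t.2 := by
      have := a2 t ht
      exact_mod_cast (by unfold rl at this; omega : 2 * md p I t.1 ≤ t.2)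
    have b3 : (md p I t.1 : ℝ) ≤ (I.getD t.1 (0, 0)).2 := by exact_mod_cast min_le_left _ _
    rw [mul_left_comm, ← mul_add]
    refine mul_le_mul_of_nonneg_left ?_ (Nat.cast_nonneg _)
    rcases max_cases 0 (C t.1 - (I.getD t.1 (0, 0)).2) with h | h <;> linarith [h.1]
  rw [List.sum_map_add, List.sum_map_mul_left] at this
  rw [cost_eq, off_eq, e, e]
  linarith

lemma lower {p : ℕ} (hp : 0 < p) (I : Inst) {L : List Piece} {C : ℕ → ℝ} (h : IsSched p I.length L C) :
    ((best p I : ℝ) - off p I) / 2 ≤ cost I C := by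
  classical
  have F := nec h
  have hp' : (1 : ℝ) ≤ p := by exact_mod_cast hp
  have c1 : ∀ a < I.length, 1 ≤ C a := fun a ha => by
    have := F a ha ∅ (by simp) 0 le_rfl (by simp)
    rw [Finset.card_empty, Nat.cast_zero] at this
    rcases max_cases (C a) 0 with h | h <;> linarith [h.1]
  set n := I.length
  let cap : ℕ := (n + 1) * p
  let x : ℕ → ℝ := fun j => min cap (max (C j) (max 1 (md p I j) : ℕ))
  have F' : Feas p n x := fun a ha S hS s hs hb => by
    have k : ((S.card : ℝ) + 1) * p ≤ cap := by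
      have : S.card ≤ n := (Finset.card_le_card fun b k => Finset.mem_range.2 (hb b k).1).trans_eq (Finset.card_range n)
      exact_mod_cast Nat.mul_le_mul_right p (Nat.succ_le_succ this)
    by_cases h1 : (cap : ℝ) ≤ s
    · linarith [le_max_right (x a) s]
    have := F a ha S hS s hs fun b k => ⟨(hb b k).1, by
      rcases min_le_iff.1 (hb b k).2 with h | h
      · exact absurd h h1
      · exact (le_max_left _ _).trans h⟩
    rcases le_total (cap : ℝ) (max (C a) (max 1 (md p I a) : ℕ)) with h | h
    · have : x a = cap := min_eq_left h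
      linarith [le_max_left (x a) s]
    · have : C a ≤ x a := (le_max_left _ _).trans_eq (min_eq_right h).symm
      linarith [max_le_max_right s this]
  obtain ⟨θ, hθ, k⟩ := exists_theta n (fun j => wt I j) x
  have x1 : ∀ j, ((max 1 (md p I j) : ℕ) : ℝ) ≤ x j := fun j => le_min (by
    have := rl_le hp I j
    rw [top, mul_left_comm, rl] at this
    exact_mod_cast Nat.le_of_mul_le_mul_left this two_pos) (le_max_right _ _)
  have y1 : ∀ j, (rl p I j : ℤ) ≤ Y θ (x j) := fun j => by
    have := Y_mono θ (x1 j)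
    rw [Y_int hθ] at this
    exact_mod_cast this
  have y2 : ∀ j, Y θ (x j) ≤ top p I := fun j => by
    have := Y_mono θ (min_le_left _ _ : x j ≤ cap)
    rw [Y_int hθ] at this
    rw [top, mul_left_comm]; exact_mod_cast this
  let m := (List.range n).mergeSort fun a b => x a ≤ x b
  have m1 : m.Perm (List.range n) := List.mergeSort_perm _ _
  have m2 : m.Pairwise fun a b => x a ≤ x b := by
    simpa using List.pairwise_mergeSort (le := fun a b => decide (x a ≤ x b))
      (fun a b c => by simpa using le_trans) (fun a b => by simpa using le_total _ _) (List.range n)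
  have y0 : Y θ 0 = 0 := by simpa using Y_int hθ 0
  have ch := ch_of F' m ∅ 0 y0.ge le_rfl (by simp) (fun a ha => ⟨List.mem_range.1 (m1.subset ha), by simp,
    (Nat.cast_nonneg _).trans (x1 a)⟩) (m1.nodup_iff.2 List.nodup_range) m2 (by simp [m1.length_eq])
  rw [y0] at ch
  have b := (best_spec hp I _).2 ⟨m.map fun a => (a, (Y θ (x a)).toNat), by simpa [Function.comp_def] using m1,
    by simpa only [List.forall_mem_map] using fun j _ => by have := y1 j; omega,
    by simpa only [List.forall_mem_map] using fun j _ => by have := y2 j; omega,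
    by rw [List.map_map, List.pairwise_map]; exact m2.imp fun h => Int.toNat_le_toNat (Y_mono θ h),
    by rw [List.map_map]; exact ch, le_rfl⟩
  rw [List.map_map, (m1.map _).sum_eq, ← List.sum_toFinset _ List.nodup_range, List.toFinset_range,
    ← Nat.cast_le (α := ℝ), Nat.cast_sum] at b
  have b2 : ∑ j ∈ Finset.range n, (wt I j : ℝ) * (2 * x j) ≤ ∑ j ∈ Finset.range n,
      (2 * ((wt I j : ℝ) * max 0 (C j - (I.getD j (0, 0)).2)) + wt I j * (2 * md p I j)) :=
    Finset.sum_le_sum fun j hj => by
      have := c1 j (Finset.mem_range.1 hj)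
      rw [mul_left_comm 2, ← mul_add]
      refine mul_le_mul_of_nonneg_left ?_ (Nat.cast_nonneg _)
      have : (md p I j : ℝ) = min ((I.getD j (0, 0)).2 : ℝ) cap := Nat.cast_min _ _
      simp only [x, Nat.cast_max, Nat.cast_one, this]
      grind
  rw [Finset.sum_add_distrib, ← Finset.mul_sum] at b2
  rw [cost_eq, off_eq]
  have : (best p I : ℝ) ≤ ∑ j ∈ Finset.range n, (wt I j : ℝ) * Y θ (x j) :=
    b.trans_eq (Finset.sum_congr rfl fun j _ => by
      have : ((Y θ (x j)).toNat : ℤ) = Y θ (x j) := Int.toNat_of_nonneg ((Nat.cast_nonneg _).trans (y1 j))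
      rw [← this, Int.cast_natCast]; exact Nat.cast_mul _ _)
  linarith

theorem val_spec {p : ℕ} (hp : 0 < p) (I : Inst) :
    IsLeast {c | ∃ L C, IsSched p I.length L C ∧ c = cost I C} ((val p I : ℝ) / 2) := by
  obtain ⟨L, C, h, k⟩ := upper hp I
  have : 0 ≤ cost I C := Finset.sum_nonneg fun j _ => mul_nonneg (Nat.cast_nonneg _) (le_max_left _ _)
  have : off p I ≤ best p I := (Nat.cast_le (α := ℝ)).1 (by linarith)
  rw [val, Nat.cast_sub this]
  exact ⟨⟨L, C, h, (lower hp I h).antisymm k⟩, fun c ⟨L, C, h, e⟩ => e ▸ lower hp I h⟩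

section
variable {α : Type} [Enc α] (p : ℕ)

@[fun_prop] lemma pt_wt {I : α → Inst} {j : α → ℕ} (hI : PT I) (hj : PT j) : PT fun a => wt (I a) (j a) := by
  unfold wt; fun_prop
@[fun_prop] lemma pt_md {I : α → Inst} {j : α → ℕ} (hI : PT I) (hj : PT j) : PT fun a => md p (I a) (j a) := by
  unfold md; fun_prop
@[fun_prop] lemma pt_rl {I : α → Inst} {j : α → ℕ} (hI : PT I) (hj : PT j) : PT fun a => rl p (I a) (j a) := by
  unfold rl; fun_prop
@[fun_prop] lemma pt_top {I : α → Inst} (hI : PT I) : PT fun a => top p (I a) := by unfold top; fun_prop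
@[fun_prop] lemma pb_top {I : α → Inst} (hI : PT I) : PB fun a => top p (I a) := by unfold top; fun_prop
attribute [local irreducible] wt md rl top
@[fun_prop] lemma pt_big {I : α → Inst} (hI : PT I) : PT fun a => big p (I a) := by unfold big; fun_prop
@[fun_prop] lemma pt_look {T : α → List (List (List ℕ))} {s e i : α → ℕ} (hT : PT T) (hs : PT s) (he : PT e)
    (hi : PT i) : PT fun a => look (T a) (s a) (e a) (i a) := by unfold look; fun_prop
@[fun_prop] lemma pt_win {I : α → Inst} {V : α → List ℕ} {s e : α → ℕ} (hI : PT I) (hV : PT V) (hs : PT s)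
    (he : PT e) : PT fun a => win (rl p (I a)) (V a) (s a) (e a) := by unfold win; fun_prop
@[fun_prop] lemma pt_mn {B : α → ℕ} {l : α → List ℕ} (hB : PT B) (hl : PT l) : PT fun a => mn (B a) (l a) :=
  PT.foldl (F := fun _ => min) (by fun_prop) hB hl (PB.size hB) fun _ _ => size_nat_mono (mn_le.2 (.inl le_rfl))
attribute [local irreducible] big look win mn
@[fun_prop] lemma pt_cell {I : α → Inst} {V : α → List ℕ} {T : α → List (List (List ℕ))} {k s e i : α → ℕ}
    (hI : PT I) (hk : PT k) (hV : PT V) (hT : PT T) (hs : PT s) (he : PT e) (hi : PT i) :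
    PT fun a => cell (wt (I a)) (rl p (I a)) (top p (I a)) (big p (I a)) (k a) (V a) (T a) (s a) (e a) (i a) := by
  unfold cell; fun_prop
attribute [local irreducible] cell

lemma pt_dp : PT fun a : Inst × List ℕ => dp (2 * p) (wt a.1) (rl p a.1) (top p a.1) a.1.length (big p a.1) a.2 :=
  PT.listRec (f := fun I => dp (2 * p) (wt I) (rl p I) (top p I) I.length (big p I))
    (F := fun I k V T => tab (top p I) I.length (big p I) (cell (wt I) (rl p I) (top p I) (big p I) k V T))
    (B := fun a => (top p a.1 + 1) * ((top p a.1 + 1) * ((a.1.length + 1) * (size (big p a.1) + 1) + 2 + 1) + 2 + 1)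
      + 2) (by unfold dp tab; fun_prop) (by unfold tab; fun_prop) (fun _ _ _ => rfl) (by fun_prop)
    fun _ l => by cases l <;> exact size_tab _ _ _ _

lemma size_perm {l m : List ℕ} (h : l.Perm m) : size l = size m := by
  induction h with
  | nil => rfl
  | cons _ _ ih => simp [ih]
  | swap => simp; omega
  | trans _ _ a b => rw [a, b]

lemma pt_srt : PT fun a : Inst × List ℕ => srt (wt a.1) a.2 :=
  PT.listRec (f := fun I => srt (wt I))
    (F := fun I x _ r => r.filter (fun j => wt I j ≤ wt I x) ++ x :: r.filter fun j => !decide (wt I j ≤ wt I x))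
    (B := fun a => size a.2) (by unfold srt; fun_prop) (by fun_prop) (fun _ _ _ => rfl) (by fun_prop)
    fun _ l => (size_perm (srt_spec _ l).1).le

theorem pt_val : PT (val p) := by
  have h1 : PT fun I : Inst => srt (wt I) (List.range I.length) :=
    pt_srt.comp (g := fun I : Inst => (I, List.range I.length)) (by fun_prop)
  have h2 := (pt_dp p).comp (PT.id.pair h1)
  have h3 : PT (best p) := pt_look h2 (by fun_prop) (by fun_prop) (by fun_prop)
  unfold val off; fun_prop

end

end Pool.Agent.H.MP_df8bb0_lc
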